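import Pool.Agent.V7H5.EG.Main

/-!
# Chow-Kunneth decompositions or exponential growth of the Chow groups of the powers

Let `X` be a smooth projective variety over a field `k` (any field; for a complex variety one may
take a model over a finitely generated field), and let `b` be the sum of its Betti numbers. Then

* the ideal of the numerically trivial self-correspondences of `X` is nilpotent, and `X` has a
  Chow-Kunneth decomposition if and only if its Kunneth projectors are algebraic; or
* the Chow groups of the powers of `X` grow exponentially faster than the groups of cycles modulo
  numerical equivalence: for all `n`

    `dim CH(X^(2 n + 2)) ≥ 1/2 (1 + 1/b)^(2 n) rank CH(X^(2 n + 2))/num`.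

If the Kunneth projectors are algebraic, the rank on the right is at least
`b^(2 n + 2) / (n + 2)^(b^2)`, where `b^(2 n + 2)` is the sum of the Betti numbers of `X^(2 n + 2)`.

No conjecture is assumed. So there are no varieties of intermediate type: if for one `n` the
dimension of `CH(X^(2 n + 2))` is smaller than this bound, then Murre's question for `X` is equivalent
to the Kunneth standard conjecture for `X`. Neither finite-dimensionality of motives nor nilpotence is
assumed, but nilpotence is a consequence.

## Idea of the proof

If all numerically trivial self-correspondences of `X` are nilpotent, the Kunneth projectors can be
lifted to orthogonal idempotents of degree zero. Otherwise, if `CH(X × X)` is finite-dimensional,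
there is a numerically trivial idempotent `e ≠ 0`, and even one with `e = e^t`: if `f` is any one,
then `f + f^t` is not nilpotent, as the trace of the multiplication by it is positive. Consider the
`2^N` projectors of `CH(X^(N+2))` given by the words of length `N` in `e` and `1 - e`. On the image
of a word with `2 j` letters `e`, one can insert the class `e × ... × e` (`j` factors) at these
places; it is not zero, as its contractions give back `e = e ∘ e`. The projector is numerically
equivalent to the identity at the other places; so the dimension of the image is at least the rank
of the cycles modulo numerical equivalence of `X^(N+2-2j)`, which is at least `b^(-2j)` times the rank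
for `X^(N+2)` if `N` is even. The sum over all words gives the bound.
-/

set_option autoImplicit false

open CategoryTheory AlgebraicGeometry Module

universe u v w

namespace Pool.Agent.Results.MP_524776_ag.ChowKuennethOrGrowthH5

open Pool.Agent.H914 Pool.Agent.N132.IXS Pool.Agent.V7H5.EG

/-- **Chow-Kunneth decompositions or exponential growth.** -/
theorem result {k : Type u} [Field k] {𝒱 : VarClass k} {ops : CycleOps 𝒱}
    {W : WeilCohomology.{u, v} ops} (C : CycleTheory.{u, v, w} W) (X : 𝒱.Obj)
    (b : ℕ) (hb : b = finrank W.K (W.H X)) (n : ℕ) :
    (IsGood C X ∨ FastGrowth C.toChowTheory X b n) ∧
      (Kuenneth C X → FullRank C.toChowTheory X b n) := by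
  rw [hb]
  exact ⟨main X n, fun h => numRank_ge h n⟩

end Pool.Agent.Results.MP_524776_ag.ChowKuennethOrGrowthH5
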