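import Pool.Agent.V7H1.CD.Main

/-!
# Chow-Kunneth decompositions by homological domination

Let `X` be a smooth projective variety (over any field) whose homologically trivial
self-correspondences form a nilpotent ideal, for example an abelian variety, or any variety whose
motive is finite-dimensional. Let `Y` be a smooth projective variety and `S` a set of degrees such
that the cohomology groups `H^i(Y)`, `i ∈ S`, come from `X`: some sum of compositions `Y → X → Y` of
correspondences acts as the identity on `H^i(Y)` for all `i ∈ S`. Nothing is assumed on the Chow
groups of `Y`: its motive need not be finite-dimensional, its homologically trivial correspondences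
need not be nilpotent, and its diagonal need not factor through `X` in `CH(Y × Y)`.

If the Kunneth projectors of `X` or of `Y` are algebraic, then the motive of `Y` is the direct sum of
motives `(Y, p_i)`, `i ∈ S`, with cohomology `H^i(Y)`, which are direct summands of sums of twists of
the motive of `X`, and of a motive `(Y, η)` whose cohomology is the sum of the `H^i(Y)`, `i ∉ S`. This
decomposition is unique up to an automorphism of the motive of `Y`, and it exists only if the
`H^i(Y)`, `i ∈ S`, come from `X`.

* If `S` contains all degrees but one, this is a Chow-Kunneth decomposition of `Y`. For example it is
  enough that all `H^i(Y)` except one come from an abelian variety.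
* If `S` contains all degrees, `(Y, η)` is a phantom, that is, a motive without cohomology; it may be
  added to any one of the `(Y, p_i)`, which gives Chow-Kunneth decompositions of `Y`. The phantom
  vanishes if and only if the whole motive of `Y` is a direct summand of a sum of twists of the motive
  of `X`, and if and only if the homologically trivial self-correspondences of `Y` form a nilpotent
  ideal.

## Idea of the proof

The cycles in `CH(Y × Y)` which are sums of compositions `Y → X → Y` form an ideal `P` of the ring of
correspondences, and the homologically trivial elements of `P` are nilpotent: a composition of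
`2 m + 1` of them is a sum of compositions `Y → X → ... → X → Y`, in which `m` homologically trivial
self-correspondences of `X` occur. Elements `z_i`, `i ∈ S`, of `P` of degree zero which act as the
projectors to `H^i(Y)` can be found; their sum is idempotent up to a nilpotent element, so that `P`
contains an idempotent `e` of degree zero which acts as this sum, and in the ring `e R e` all
homologically trivial elements are nilpotent; there the projectors can be lifted to orthogonal
idempotents `p_i`. The rest is `η = 1 - ∑ p_i`.
-/

set_option autoImplicit false

open CategoryTheory AlgebraicGeometry

universe u v w

namespace Pool.Agent.Results.MP_524776_ag.DominationH1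

open Pool.Agent.H914 Pool.Agent.N132.IXS Pool.Agent.V7H5.EG Pool.Agent.V7H1.CD

/-- **Chow-Kunneth decompositions by homological domination.** -/
theorem result {k : Type u} [Field k] {𝒱 : VarClass k} {ops : CycleOps 𝒱}
    {W : WeilCohomology.{u, v} ops} (C : CycleTheory.{u, v, w} W) (X Y : 𝒱.Obj)
    (hX : HomNilpotent C X) (hK : Kuenneth C X ∨ Kuenneth C Y)
    (S : Set (Fin (2 * Y.dim + 1))) :
    (Dominates C X Y S ↔ ∃ η p, IsSplitting (C := C) X Y S η p) ∧
      ∀ η p, IsSplitting (C := C) X Y S η p →
        (∀ η' p', IsSplitting X Y S η' p' → Isomorphic Y η p η' p') ∧ GivesCK Y S η p ∧
        (S = Set.univ →
          η.HomTriv ∧ (η = 0 ↔ Through X (diag C Y)) ∧ (η = 0 ↔ HomNilpotent C Y)) :=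
  ⟨main hK hX, fun _ _ h => ⟨fun _ _ h' => iso_of hX h h', ck_of h,
    fun hS => ⟨phantom_of h hS, phantom_iff hX h hS, phantom_iff' hX h hS⟩⟩⟩

end Pool.Agent.Results.MP_524776_ag.DominationH1
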