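import Pool.Agent.V7H2.LT.Defs
import Pool.Agent.V7H2.LT.MapThm
import Pool.Agent.V7H2.LT.ProdThm
import Pool.Agent.V7H2.LT.Curve

/-!
# Chow-Kunneth decompositions for Lefschetz towers

`𝒱` is a class of smooth projective geometrically irreducible varieties over the field `k` closed
under products (for example all of them, `k = ℂ`), `C` the Chow groups with rational coefficients
(in the form of their formal properties, `IsChowProj`) and `H` a Weil cohomology theory
(`IsWeilProj`), for example Betti cohomology.

A pair `(X, ℓ)`, `ℓ` a divisor class on `X`, has a triangular Lefschetz decomposition `π` if `π` is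
a Chow-Kunneth decomposition of `X`, the intersection with `ℓ` raises the weights at most by two
(`π_j ∘ ℓ ∘ π_i = 0` for `j > i + 2`), and `ℓ^(n-i)` induces isomorphisms of Chow motives
`h^i(X) → h^(2n-i)(X)(n-i)` for `i < n = dim X`. Every surface (Murre) and every abelian variety
(Kunnemann) has one for every ample `ℓ`.

The theorem: this class of pairs contains the curves and is closed under products
`(X × Y, a ℓ + b ℓ')` and under Lefschetz maps, for example under smooth complete intersections
`X ⊆ Y` of ample divisors proportional to `ℓ`, and cyclic coverings `X → Y` branched along a smooth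
ample divisor proportional to `ℓ`. So all varieties obtained by iterating these operations have
Chow-Kunneth decompositions. Neither finite-dimensionality of motives nor nilpotence of
homologically trivial correspondences is assumed.
-/

set_option autoImplicit false

open CategoryTheory AlgebraicGeometry

universe u v w

namespace Pool.Agent.Results.MP_524776_ag.LefschetzTowersH2

open Pool.Agent.H914 Pool.Agent.H914.VarClass Pool.Agent.H914.VarClass.Obj Pool.Agent.W492.BB
  Pool.Agent.W550.Corr Pool.Agent.TH133 Pool.Agent.V7H2.LT

/-- All members of the Lefschetz tower over a class `S` of pairs with triangular Lefschetz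
decompositions have triangular Lefschetz decompositions, in particular Chow-Kunneth
decompositions. -/
theorem result {k : Type u} [Field k] {𝒱 : VarClass k} (C : TheoryData.{u, v, 0} 𝒱 ℚ)
    [IsChowProj C] {K : Type w} [Field K] (H : WeilTheoryData.{u, v, w} C K) [IsWeilProj H]
    (S : ∀ X : 𝒱.Obj, C.A X → Prop)
    (hS : ∀ (X : 𝒱.Obj) (ℓ : C.A X), S X ℓ → ∃ π, IsCK H X π ∧ TriangularLefschetz C ℓ π)
    (X : 𝒱.Obj) (ℓ : C.A X) (h : Tower H S X ℓ) :
    ∃ π, IsCK H X π ∧ TriangularLefschetz C ℓ π := by
  induction h with
  | base X ℓ h => exact hS X ℓ h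
  | curve X ℓ hX hℓ q hq h => exact ⟨_, curve_triangular hX hℓ hq h⟩
  | prod X Y ℓ ℓ' a b ha hb _ _ ihX ihY =>
    obtain ⟨π, h1, h2⟩ := ihX
    obtain ⟨ρ, h3, h4⟩ := ihY
    exact ⟨_, h1.prod h3, triangular_prod ha hb h1 h2 h3 h4⟩
  | map X Y f ℓ hf _ ih =>
    obtain ⟨π, h1, h2⟩ := ih
    exact exists_of_map hf h1 h2

end Pool.Agent.Results.MP_524776_ag.LefschetzTowersH2
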