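import Pool.Agent.V7H78.TC.Fin

/-!
# Tautological rings with moderate growth give Chow-Künneth decompositions

Let `X` be a smooth projective variety over a field, for example over `ℂ`, let `W` be a Weil
cohomology theory with coefficient field `K` (Betti cohomology, `K = ℚ`), and let `C` be the theory
of cycles with coefficients in `K` modulo rational equivalence, on the class `𝒱` of the products of
copies of `X`. Let `S` be ANY set of cycle classes on powers of `X`; the case `S = {h}` with `h`
ample is allowed. Let `R(X^n)` be the tautological rings (`tautRing`): the smallest family of graded
subrings of `CH^*(X^n)` which contains `S` and is stable under pull-backs and push-forwards along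
all morphisms between powers of `X`. Suppose that some class in `R^1(X)` satisfies the hard
Lefschetz theorem, for example because `S` contains an ample class. Then one of the following holds:

* The ratios `dim R(X^n) / rank (R(X^n) / num)` tend to infinity, where `num` is numerical
  equivalence in `R(X^n)`: `x` is trivial if `deg (x y) = 0` for all `y` in `R(X^n)`.
* These ratios tend to an integer `N ≥ 1`, all the rings `R(X^n)` are finite-dimensional, `X` has a
  Chow-Künneth decomposition with projectors in `R^d(X × X)`, the Chow motive of `X` is
  finite-dimensional in the sense of Kimura (some exterior power of the even part of this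
  decomposition and some symmetric power of the odd part vanish), every numerically trivial class in
  `R(X^n)` is homologically trivial, and its `N`-th external power `x × ⋯ × x` vanishes.

The proof applies the index law for theories of cycles (`Pool/Agent/N132/IX`, which concerns the
growth of the full Chow rings) to the theory of the tautological classes, which is shown to be a
theory of cycles in its own right (`Pool/Agent/V7H78/TC/Sub.lean`); the point is that the Künneth
projectors are found among the tautological classes (`Pool/Agent/V7H78/TC/Lin.lean`). Since long
compositions of numerically trivial tautological correspondences vanish, there are no homologically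
trivial idempotents among them (`Kim3.lean`), and the idempotents which define high exterior and
symmetric powers vanish (`Kim2.lean`, adapted from `Pool/Agent/Y110`).
-/

set_option autoImplicit false

open scoped ENNReal
open Filter Topology Module
open Pool.Agent.H914 Pool.Agent.H914.VarClass Pool.Agent.H914.VarClass.Obj
open Pool.Agent.Y133.Half Pool.Agent.V7H78.TC
open Pool.Agent.N132.IXS (ChowTheory CycleTheory)

universe u v w

namespace Pool.Agent.Results.MP_524776_ag.TautologicalDichotomyH78

/-- **Tautological rings with moderate growth give Chow-Künneth decompositions.** -/
theorem result {k : Type u} [Field k] {𝒱 : VarClass k} {ops : CycleOps 𝒱}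
    {W : WeilCohomology.{u, v} ops} (C : CycleTheory.{u, v, w} W)
    (S : Gens C) (X : 𝒱.Obj) (hS : Admissible C S X)
    (h : C.A X) (hh : Taut C.toTheoryData S X 1 h) (hL : IsLefschetz C X h) :
    Tendsto (fun n => tautRatio C.toChowTheory S (pw X n)) atTop (𝓝 ⊤) ∨
    ∃ N : ℕ, 1 ≤ N ∧ Tendsto (fun n => tautRatio C.toChowTheory S (pw X n)) atTop (𝓝 N) ∧
      (∃ π, IsTautCK C S X π ∧ IsKimura C.toTheoryData X π) ∧ ∀ n, SmallNum C S (pw X n) (N - 1) :=
  dichotomy_law hS hh hL

end Pool.Agent.Results.MP_524776_ag.TautologicalDichotomyH78
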